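import Mathlib

/-!
# A De Marr type fixed point lemma
-/

set_option autoImplicit false

open Set

namespace Pool.Agent.Q189.DM

theorem exists_min {V : Type*} [TopologicalSpace V] [T2Space V] (C : Set V) (hC : IsCompact C)
    (hne : C.Nonempty) (P : Set V → Prop)
    (hP : ∀ c : Set (Set V), c.Nonempty → (∀ s ∈ c, P s) → P (⋂₀ c)) (hPC : P C) :
    ∃ Z ⊆ C, IsClosed Z ∧ Z.Nonempty ∧ P Z ∧
      ∀ F : Set V, IsClosed F → F.Nonempty → P F → F ⊆ Z → F = Z := by
  obtain ⟨Z, hZ⟩ := zorn_superset {Z : Set V | Z ⊆ C ∧ IsClosed Z ∧ Z.Nonempty ∧ P Z} (by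
    intro c hc hchain
    rcases c.eq_empty_or_nonempty with h | h
    · exact ⟨C, ⟨Subset.rfl, hC.isClosed, hne, hPC⟩, by simp [h]⟩
    · refine ⟨⋂₀ c, ⟨?_, isClosed_sInter fun s hs => (hc hs).2.1, ?_, hP c h fun s hs =>
        (hc hs).2.2.2⟩, fun s hs => sInter_subset_of_mem hs⟩
      · obtain ⟨s, hs⟩ := h
        exact (sInter_subset_of_mem hs).trans (hc hs).1
      · have : Nonempty c := h.to_subtype
        rw [sInter_eq_iInter]
        refine IsCompact.nonempty_iInter_of_directed_nonempty_isCompact_isClosed _ ?_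
          (fun s => (hc s.2).2.2.1) (fun s => hC.of_isClosed_subset (hc s.2).2.1 (hc s.2).1)
          (fun s => (hc s.2).2.1)
        intro s t
        rcases hchain.total s.2 t.2 with h | h
        · exact ⟨s, Subset.rfl, h⟩
        · exact ⟨t, h, Subset.rfl⟩)
  refine ⟨Z, hZ.prop.1, hZ.prop.2.1, hZ.prop.2.2.1, hZ.prop.2.2.2, fun F h1 h2 h3 h4 => ?_⟩
  exact Subset.antisymm h4 (hZ.le_of_le ⟨h4.trans hZ.prop.1, h1, h2, h3⟩ h4)

theorem alg_aux (N d : ℝ) (hN : N ≠ 0) : 1 / N * (N * d - d / 2) = d - d / (2 * N) := by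
  field_simp

theorem fixed_of {V : Type*} [AddCommGroup V] [Module ℝ V] [TopologicalSpace V] [T2Space V]
    {S ι : Type*} (p : ι → Seminorm ℝ V) (hcl : ∀ i k r, IsClosed {c | p i (c - k) ≤ r})
    (hsep : ∀ x, (∀ i, p i x = 0) → x = 0)
    (C : Set V) (hC : IsCompact C) (hconv : Convex ℝ C) (hne : C.Nonempty)
    (T : S → V → V) (hT : ∀ s, MapsTo (T s) C C)
    (hexp : ∀ s i, ∀ x ∈ C, ∀ y ∈ C, p i (T s x - T s y) ≤ p i (x - y))
    (H : ∀ D ⊆ C, IsClosed D → Convex ℝ D → D.Nonempty → (∀ s, MapsTo (T s) D D) →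
      ∃ K ⊆ D, K.Nonempty ∧ (∀ s, T s '' K = K) ∧
        ∀ i, ∀ ε > 0, ∃ F : Finset V, ↑F ⊆ K ∧ ∀ k ∈ K, ∃ f ∈ F, p i (k - f) ≤ ε) :
    ∃ x ∈ C, ∀ s, T s x = x := by
  classical
  obtain ⟨D, hDC, hDcl, hDne, ⟨hDconv, hDT⟩, hDmin⟩ := exists_min C hC hne
    (fun D => Convex ℝ D ∧ ∀ s, MapsTo (T s) D D) (by
      intro c hcne hc
      refine ⟨convex_sInter fun s hs => (hc s hs).1, fun s x hx t ht => (hc t ht).2 s (hx t ht)⟩)
    ⟨hconv, hT⟩
  obtain ⟨K, hKD, hKne, hKT, hKtb⟩ := H D hDC hDcl hDconv hDne hDT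
  have hdiam : ∀ i, ∀ x ∈ K, ∀ y ∈ K, p i (x - y) = 0 := by
    intro i
    by_contra hcon
    push Not at hcon
    obtain ⟨x0, hx0, y0, hy0, hxy0⟩ := hcon
    -- boundedness
    obtain ⟨F1, hF1K, hF1⟩ := hKtb i 1 one_pos
    let A : Set ℝ := {r | ∃ x ∈ K, ∃ y ∈ K, p i (x - y) = r}
    have hAne : A.Nonempty := ⟨_, x0, hx0, y0, hy0, rfl⟩
    have hAb : BddAbove A := by
      refine ⟨∑ f ∈ F1, ∑ g ∈ F1, p i (f - g) + 2, ?_⟩
      rintro _ ⟨x, hx, y, hy, rfl⟩
      obtain ⟨f, hf, hxf⟩ := hF1 x hx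
      obtain ⟨g, hg, hyg⟩ := hF1 y hy
      have h1 : p i (x - y) ≤ p i (x - f) + p i (f - g) + p i (y - g) := by
        have e : x - y = (x - f) + (f - g) - (y - g) := by abel
        rw [e]
        refine (map_sub_le_add (p i) _ _).trans ?_
        gcongr
        exact map_add_le_add (p i) _ _
      have h2 : p i (f - g) ≤ ∑ f ∈ F1, ∑ g ∈ F1, p i (f - g) :=
        (Finset.single_le_sum (f := fun g => p i (f - g)) (fun g _ => apply_nonneg _ _) hg).trans
          (Finset.single_le_sum (f := fun f => ∑ g ∈ F1, p i (f - g))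
            (fun f _ => Finset.sum_nonneg fun g _ => apply_nonneg _ _) hf)
      linarith
    set d := sSup A with hd
    have hd0 : 0 < d := by
      have h1 : p i (x0 - y0) ≤ d := le_csSup hAb ⟨x0, hx0, y0, hy0, rfl⟩
      have h2 : 0 ≤ p i (x0 - y0) := apply_nonneg _ _
      exact lt_of_lt_of_le (lt_of_le_of_ne h2 (Ne.symm hxy0)) h1
    have hle : ∀ x ∈ K, ∀ y ∈ K, p i (x - y) ≤ d := fun x hx y hy =>
      le_csSup hAb ⟨x, hx, y, hy, rfl⟩
    obtain ⟨F, hFK, hF⟩ := hKtb i (d / 2) (by positivity)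
    obtain ⟨f0, hf0, -⟩ := hF x0 hx0
    have hn : (0 : ℝ) < F.card := by exact_mod_cast Finset.card_pos.2 ⟨f0, hf0⟩
    set u : V := ∑ f ∈ F, (1 / (F.card : ℝ)) • f with hu
    have huD : u ∈ D := by
      refine hDconv.sum_mem (fun _ _ => by positivity) ?_ fun f hf => hKD (hFK hf)
      rw [Finset.sum_const, nsmul_eq_mul]
      field_simp
    set r := d - d / (2 * F.card) with hr
    have hrd : r < d := by
      have : 0 < d / (2 * (F.card : ℝ)) := by positivity
      linarith
    have hukey : ∀ k ∈ K, p i (u - k) ≤ r := by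
      intro k hk
      obtain ⟨f1, hf1, hkf1⟩ := hF k hk
      have e1 : u - k = ∑ f ∈ F, (1 / (F.card : ℝ)) • (f - k) := by
        rw [hu]
        simp only [smul_sub, Finset.sum_sub_distrib]
        congr 1
        rw [Finset.sum_const, ← Nat.cast_smul_eq_nsmul ℝ, smul_smul]
        rw [mul_one_div_cancel hn.ne', one_smul]
      rw [e1]
      have h2 : p i (∑ f ∈ F, (1 / (F.card : ℝ)) • (f - k)) ≤
          ∑ f ∈ F, p i ((1 / (F.card : ℝ)) • (f - k)) := by
        refine Finset.le_sum_of_subadditive (p i) (map_zero _).le (fun a b => map_add_le_add _ _ _) _ _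
      refine h2.trans ?_
      have h3 : ∀ f ∈ F, p i ((1 / (F.card : ℝ)) • (f - k)) ≤
          (1 / (F.card : ℝ)) * (if f = f1 then d / 2 else d) := by
        intro f hf
        rw [map_smul_eq_mul, Real.norm_eq_abs, abs_of_pos (by positivity)]
        refine mul_le_mul_of_nonneg_left ?_ (by positivity)
        split_ifs with h
        · rw [h, map_sub_rev]; exact hkf1
        · exact hle f (hFK hf) k hk
      refine (Finset.sum_le_sum h3).trans ?_
      have h4 : ∑ f ∈ F, (if f = f1 then d / 2 else d) = F.card * d - d / 2 := by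
        have h5 : ∀ f ∈ F, (if f = f1 then d / 2 else d) = d - (if f = f1 then d / 2 else 0) := by
          intro f _
          split_ifs
          · ring
          · ring
        rw [Finset.sum_congr rfl h5, Finset.sum_sub_distrib, Finset.sum_const, nsmul_eq_mul,
          Finset.sum_ite_eq', if_pos hf1]
      rw [← Finset.mul_sum, h4, hr]
      exact (alg_aux _ _ hn.ne').le
    let D1 : Set V := {c | c ∈ D ∧ ∀ k ∈ K, p i (c - k) ≤ r}
    have hD1 : D1 = D := by
      apply hDmin
      · have : D1 = D ∩ ⋂ k ∈ K, {c | p i (c - k) ≤ r} := by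
          ext c; simp [D1]
        rw [this]
        exact hDcl.inter (isClosed_biInter fun k _ => hcl i k r)
      · exact ⟨u, huD, hukey⟩
      · constructor
        · intro a ha b hb s t hs ht hst
          refine ⟨hDconv ha.1 hb.1 hs ht hst, fun k hk => ?_⟩
          have e : s • a + t • b - k = s • (a - k) + t • (b - k) := by
            rw [smul_sub, smul_sub]
            have : k = s • k + t • k := by rw [← add_smul, hst, one_smul]
            nth_rw 1 [this]
            abel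
          rw [e]
          refine (map_add_le_add _ _ _).trans ?_
          rw [map_smul_eq_mul, map_smul_eq_mul, Real.norm_eq_abs, Real.norm_eq_abs,
            abs_of_nonneg hs, abs_of_nonneg ht]
          have h1 := ha.2 k hk
          have h2 := hb.2 k hk
          calc s * p i (a - k) + t * p i (b - k) ≤ s * r + t * r := by gcongr
            _ = r := by rw [← add_mul, hst, one_mul]
        · intro s c hc
          refine ⟨hDT s hc.1, fun k hk => ?_⟩
          rw [← hKT s] at hk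
          obtain ⟨k', hk', rfl⟩ := hk
          exact (hexp s i c (hDC hc.1) k' (hDC (hKD hk'))).trans (hc.2 k' hk')
      · exact fun c hc => hc.1
    have hfin : d ≤ r := by
      refine csSup_le hAne ?_
      rintro _ ⟨x, hx, y, hy, rfl⟩
      have : x ∈ D1 := by rw [hD1]; exact hKD hx
      exact this.2 y hy
    linarith
  obtain ⟨x0, hx0⟩ := hKne
  refine ⟨x0, hDC (hKD hx0), fun s => ?_⟩
  have h1 : T s x0 ∈ K := by
    rw [← hKT s]
    exact ⟨x0, hx0, rfl⟩
  have h2 : T s x0 - x0 = 0 := hsep _ fun i => hdiam i _ h1 _ hx0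
  exact sub_eq_zero.1 h2

end Pool.Agent.Q189.DM
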